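import Pool.Agent.X183.HM.Six

/-!
# The bounds for positive curvature in dimension six, relative to any inner product
-/

set_option autoImplicit false

namespace Pool.Agent.X183.HM

open Finset Pool.Agent.W666.GB Pool.Agent.X179.EP

variable {V : Type*} [NormedAddCommGroup V] [InnerProductSpace ℝ V]
variable {R : V → V → V → V → ℝ}

/-- curvatures in `[0, c]` -/
theorem mean_pos (e : OrthonormalBasis (Fin 3 × Bool) ℝ V) (hR : AlgCurv R) {c : ℝ} (hc : 0 ≤ c)
    (hs : SecIn R 0 c) :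
    roundGB 3 1 * (c ^ 2 * (scal e R / 10 - 2 * c)) ≤ gbc e R := by
  have h1 := Pool.Agent.TH570.Hopf.mean_bound_pos (e.reindex i6.symm) (curv6 hR) hc
    (fun x y hx hy hxy => hs x y hx hy hxy)
  rwa [six_eq, scalar_eq, ← Pool.Agent.X183.HM.round_eq] at h1

/-- curvatures at least `c`, Ricci curvatures at most `14 c` -/
theorem ric_pos (e : OrthonormalBasis (Fin 3 × Bool) ℝ V) (hR : AlgCurv R) {c : ℝ} (hc : 0 ≤ c)
    (hs : ∀ x y : V, ‖x‖ = 1 → ‖y‖ = 1 → inner ℝ x y = 0 → c ≤ R x y x y)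
    (hr : ∀ x : V, ‖x‖ = 1 → ricB R e x ≤ 14 * c) :
    roundGB 3 1 * (c ^ 2 * (scal e R / 10 - 2 * c)) ≤ gbc e R ∧
      roundGB 3 1 * c ^ 3 ≤ roundGB 3 1 * (c ^ 2 * (scal e R / 10 - 2 * c)) := by
  have h1 := Pool.Agent.TH570.Hopf.ric_bound_pos (e.reindex i6.symm) (curv6 hR) hc
    (fun x y hx hy hxy => hs x y hx hy hxy)
    (by
      intro x hx
      have h2 : Pool.Agent.TH570.Hopf.ric (e.reindex i6.symm) R x = ricB R e x := by
        unfold Pool.Agent.TH570.Hopf.ric ricB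
        refine Fintype.sum_equiv i6 _ _ fun i => ?_
        simp
      rw [h2]; exact hr x hx)
  rw [six_eq, scalar_eq, ← Pool.Agent.X183.HM.round_eq] at h1
  refine ⟨h1, ?_⟩
  have h3 := Pool.Agent.TH570.Hopf.scalar_ge (e.reindex i6.symm) (curv6 hR)
    (c := c) (fun x y hx hy hxy => hs x y hx hy hxy)
  rw [scalar_eq] at h3
  refine mul_le_mul_of_nonneg_left ?_ round_pos.le
  have h5 : 0 ≤ c ^ 2 * (scal e R / 10 - 3 * c) :=
    mul_nonneg (by positivity) (by linarith)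
  nlinarith

variable {h : LinearMap.BilinForm ℝ V} {b : Fin 3 × Bool → V}

/-- the bound relative to `h` -/
theorem mean_h_pos (e : OrthonormalBasis (Fin 3 × Bool) ℝ V) (hR : AlgCurv R) (hb : Ortho h b)
    {c : ℝ} (hc : 0 ≤ c)
    (hs : ∀ x y : V, h x x = 1 → h y y = 1 → h x y = 0 → 0 ≤ R x y x y ∧ R x y x y ≤ c) :
    (Matrix.det fun i j => h (e i) (e j)) *
      (roundGB 3 1 * (c ^ 2 * (scalB R b / 10 - 2 * c))) ≤ gbc e R := by
  rw [gbc_car hR e hb]
  refine mul_le_mul_of_nonneg_left ?_ (det_pos e hb).le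
  have h1 := mean_pos e (pull_curv hR (car e b)) hc (fun x y hx hy hxy =>
    hs (car e b x) (car e b y) (car_unit e hb hx) (car_unit e hb hy)
      (by rw [car_h e hb]; exact hxy))
  rwa [scal_car] at h1

/-- the bound relative to `h` -/
theorem ric_h_pos (e : OrthonormalBasis (Fin 3 × Bool) ℝ V) (hR : AlgCurv R) (hb : Ortho h b)
    {c : ℝ} (hc : 0 ≤ c)
    (hs : ∀ x y : V, h x x = 1 → h y y = 1 → h x y = 0 → c ≤ R x y x y)
    (hr : ∀ x : V, h x x = 1 → ricB R b x ≤ 14 * c) :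
    (Matrix.det fun i j => h (e i) (e j)) *
      (roundGB 3 1 * (c ^ 2 * (scalB R b / 10 - 2 * c))) ≤ gbc e R ∧
    roundGB 3 1 * c ^ 3 ≤ roundGB 3 1 * (c ^ 2 * (scalB R b / 10 - 2 * c)) := by
  have h1 := ric_pos e (pull_curv hR (car e b)) hc (fun x y hx hy hxy =>
    hs (car e b x) (car e b y) (car_unit e hb hx) (car_unit e hb hy)
      (by rw [car_h e hb]; exact hxy))
    (fun x hx => by
      rw [ric_car]
      exact hr (car e b x) (car_unit e hb hx))
  rw [scal_car] at h1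
  refine ⟨?_, h1.2⟩
  rw [gbc_car hR e hb]
  exact mul_le_mul_of_nonneg_left h1.1 (det_pos e hb).le

end Pool.Agent.X183.HM
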