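import Pool.Agent.TH570.Hopf.Scal
import Pool.Agent.X179.EP.Six

/-!
# Sharp bounds of the Gauss-Bonnet-Chern integrand in dimension six relative to any inner product

The pointwise bounds for negative curvature of `Pool/Agent/TH570/Hopf/`, transported to arbitrary
inner products by the transformation rule of `Pool/Agent/X179/EP/`.
-/

set_option autoImplicit false

namespace Pool.Agent.X183.HM

open Finset Pool.Agent.W666.GB Pool.Agent.X179.EP

variable {V : Type*} [NormedAddCommGroup V] [InnerProductSpace ℝ V]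
variable {R : V → V → V → V → ℝ}

/-- The sum of the sectional curvatures over all ordered pairs of vectors of the family `b`; for
an `h`-orthonormal basis this is the scalar curvature of `R` relative to `h`. -/
noncomputable def scalB {ι : Type*} [Fintype ι] (R : V → V → V → V → ℝ) (b : ι → V) : ℝ :=
  ∑ i, ∑ j, R (b i) (b j) (b i) (b j)

/-- The Ricci curvature `Ric (v, v)` relative to the metric with orthonormal basis `b`. -/
noncomputable def ricB {ι : Type*} [Fintype ι] (R : V → V → V → V → ℝ) (b : ι → V) (v : V) : ℝ :=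
  ∑ i, R v (b i) v (b i)

theorem round_eq : roundGB 3 1 = Pool.Agent.TH570.Hopf.kap6 := by
  rw [← round6]
  unfold Hopf6.roundGB Pool.Agent.TH570.Hopf.kap6
  ring

theorem round_pos : 0 < roundGB 3 1 := by
  rw [round_eq]; exact Pool.Agent.TH570.Hopf.kap6_pos

theorem scalar_eq (e : OrthonormalBasis (Fin 3 × Bool) ℝ V) (R : V → V → V → V → ℝ) :
    Hopf6.scalar (e.reindex i6.symm) R = scal e R := by
  unfold Hopf6.scalar scal
  refine Fintype.sum_equiv i6 _ _ fun i => ?_
  refine Fintype.sum_equiv i6 _ _ fun j => ?_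
  simp

/-- curvatures in `[-c, 0]` -/
theorem mean_neg (e : OrthonormalBasis (Fin 3 × Bool) ℝ V) (hR : AlgCurv R) {c : ℝ} (hc : 0 ≤ c)
    (hs : SecIn R (-c) 0) :
    gbc e R ≤ roundGB 3 1 * (c ^ 2 * (scal e R / 10 + 2 * c)) := by
  have h1 := Pool.Agent.TH570.Hopf.mean_bound_neg (e.reindex i6.symm) (curv6 hR) hc
    (fun x y hx hy hxy => hs x y hx hy hxy)
  rwa [six_eq, scalar_eq, ← round_eq] at h1

/-- curvatures at most `-c`, Ricci curvatures at least `-14 c` -/
theorem ric_neg (e : OrthonormalBasis (Fin 3 × Bool) ℝ V) (hR : AlgCurv R) {c : ℝ} (hc : 0 ≤ c)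
    (hs : ∀ x y : V, ‖x‖ = 1 → ‖y‖ = 1 → inner ℝ x y = 0 → R x y x y ≤ -c)
    (hr : ∀ x : V, ‖x‖ = 1 → -(14 * c) ≤ ricB R e x) :
    gbc e R ≤ roundGB 3 1 * (c ^ 2 * (scal e R / 10 + 2 * c)) ∧
      roundGB 3 1 * (c ^ 2 * (scal e R / 10 + 2 * c)) ≤ -(roundGB 3 1 * c ^ 3) := by
  have h1 := Pool.Agent.TH570.Hopf.ric_bound_neg (e.reindex i6.symm) (curv6 hR) hc
    (fun x y hx hy hxy => hs x y hx hy hxy)
    (by
      intro x hx
      have h2 : Pool.Agent.TH570.Hopf.ric (e.reindex i6.symm) R x = ricB R e x := by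
        unfold Pool.Agent.TH570.Hopf.ric ricB
        refine Fintype.sum_equiv i6 _ _ fun i => ?_
        simp
      rw [h2]; exact hr x hx)
  rw [six_eq, scalar_eq, ← round_eq] at h1
  refine ⟨h1, ?_⟩
  have h3 := Pool.Agent.TH570.Hopf.scalar_ge (e.reindex i6.symm) (Hopf6.neg_curv (curv6 hR))
    (c := c) (fun x y hx hy hxy => by
      have := hs x y hx hy hxy
      linarith)
  rw [Pool.Agent.TH570.Hopf.scalar_neg, scalar_eq] at h3
  have hk := round_pos.le
  have h4 : c ^ 2 * (scal e R / 10 + 2 * c) ≤ -(c ^ 3) := by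
    have h5 : 0 ≤ c ^ 2 * (-(scal e R / 10) - 3 * c) :=
      mul_nonneg (by positivity) (by linarith)
    nlinarith
  have h6 := mul_le_mul_of_nonneg_left h4 hk
  linarith [h6]

variable {h : LinearMap.BilinForm ℝ V} {b : Fin 3 × Bool → V}

theorem scal_car (e : OrthonormalBasis (Fin 3 × Bool) ℝ V) :
    scal e (pull (car e b) R) = scalB R b := by
  unfold scal scalB pull
  simp only [car_e]

theorem ric_car (e : OrthonormalBasis (Fin 3 × Bool) ℝ V) (x : V) :
    ricB (pull (car e b) R) e x = ricB R b (car e b x) := by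
  unfold ricB pull
  simp only [car_e]

theorem car_unit (e : OrthonormalBasis (Fin 3 × Bool) ℝ V) (hb : Ortho h b) {x : V}
    (hx : ‖x‖ = 1) : h (car e b x) (car e b x) = 1 := by
  rw [car_h e hb, real_inner_self_eq_norm_sq, hx]; norm_num

/-- the bound relative to `h` -/
theorem mean_h (e : OrthonormalBasis (Fin 3 × Bool) ℝ V) (hR : AlgCurv R) (hb : Ortho h b)
    {c : ℝ} (hc : 0 ≤ c)
    (hs : ∀ x y : V, h x x = 1 → h y y = 1 → h x y = 0 → -c ≤ R x y x y ∧ R x y x y ≤ 0) :
    gbc e R ≤ (Matrix.det fun i j => h (e i) (e j)) *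
      (roundGB 3 1 * (c ^ 2 * (scalB R b / 10 + 2 * c))) := by
  rw [gbc_car hR e hb]
  refine mul_le_mul_of_nonneg_left ?_ (det_pos e hb).le
  have h1 := mean_neg e (pull_curv hR (car e b)) hc (fun x y hx hy hxy =>
    hs (car e b x) (car e b y) (car_unit e hb hx) (car_unit e hb hy)
      (by rw [car_h e hb]; exact hxy))
  rwa [scal_car] at h1

/-- the bound relative to `h` -/
theorem ric_h (e : OrthonormalBasis (Fin 3 × Bool) ℝ V) (hR : AlgCurv R) (hb : Ortho h b)
    {c : ℝ} (hc : 0 ≤ c)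
    (hs : ∀ x y : V, h x x = 1 → h y y = 1 → h x y = 0 → R x y x y ≤ -c)
    (hr : ∀ x : V, h x x = 1 → -(14 * c) ≤ ricB R b x) :
    gbc e R ≤ (Matrix.det fun i j => h (e i) (e j)) *
      (roundGB 3 1 * (c ^ 2 * (scalB R b / 10 + 2 * c))) ∧
    roundGB 3 1 * (c ^ 2 * (scalB R b / 10 + 2 * c)) ≤ -(roundGB 3 1 * c ^ 3) := by
  have h1 := ric_neg e (pull_curv hR (car e b)) hc (fun x y hx hy hxy =>
    hs (car e b x) (car e b y) (car_unit e hb hx) (car_unit e hb hy)
      (by rw [car_h e hb]; exact hxy))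
    (fun x hx => by
      rw [ric_car]
      exact hr (car e b x) (car_unit e hb hx))
  rw [scal_car] at h1
  refine ⟨?_, h1.2⟩
  rw [gbc_car hR e hb]
  exact mul_le_mul_of_nonneg_left h1.1 (det_pos e hb).le

end Pool.Agent.X183.HM
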